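import Pool.Agent.X172.GR.Stm

/-! Part RER of project GR (MP_eff4ce_al): right compatibility of `RE`. -/

set_option autoImplicit false

namespace Pool.Agent.X9.GR
open Pool.Agent.X172.GR

variable {n : ℕ} {T : ℕ → Fin 6}

theorem rd_append (i : ℕ) (x y : List Ltr) :
    Rd T i (x ++ y) ↔ Rd T i x ∧ Rd T (i + x.length) y := by
  induction x generalizing i with
  | nil => simp [Rd]
  | cons a x ih =>
    simp only [List.cons_append, Rd, ih, List.length_cons, and_assoc]
    rw [show i + 1 + x.length = i + (x.length + 1) by ring]

theorem rd_get (i : ℕ) (w : List Ltr) :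
    Rd T i w ↔ ∀ j a, w[j]? = some a → a.1 = T (i + j) := by
  induction w generalizing i with
  | nil => simp [Rd]
  | cons a w ih =>
    simp only [Rd, ih]
    constructor
    · rintro ⟨h1, h2⟩ j b hb
      cases j with
      | zero =>
        simp only [List.getElem?_cons_zero, Option.some.injEq] at hb
        subst hb; simpa using h1
      | succ j =>
        have := h2 j b (by simpa using hb)
        rw [this]; congr 1; ring
    · intro h
      refine ⟨by simpa using h 0 a (by simp), fun j b hb => ?_⟩
      have := h (j+1) b (by simpa using hb)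
      rw [this]; congr 1; ring

theorem per_mul (hT : Ty n T) (i c : ℕ) : T (i + n * c) = T i := by
  induction c with
  | zero => simp
  | succ c ih => rw [Nat.mul_succ, ← add_assoc, hT.per, ih]

theorem per_mod (hT : Ty n T) {i j : ℕ} (h : i ≡ j [MOD n]) : T i = T j := by
  have h1 : T i = T (i % n) := by
    have := per_mul hT (i % n) (i / n)
    rwa [Nat.mod_add_div] at this
  have h2 : T j = T (j % n) := by
    have := per_mul hT (j % n) (j / n)
    rwa [Nat.mod_add_div] at this
  rw [h1, h2]
  exact congrArg T h

theorem idx_unique (hn : 4 ≤ n) (hT : Ty n T) {i j : ℕ} {z : List Ltr} (hz : n ≤ z.length)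
    (h1 : Rd T i z) (h2 : Rd T j z) : i ≡ j [MOD n] := by
  have hi : i % n < n := Nat.mod_lt _ (by omega)
  obtain ⟨t, ht⟩ : ∃ t, t = n - 1 - i % n := ⟨_, rfl⟩
  have htn : t < n := by omega
  have hd : n ∣ i + t + 1 := by
    refine ⟨i / n + 1, ?_⟩
    have := Nat.mod_add_div i n
    rw [Nat.mul_add, mul_one]; omega
  have hlt : t < z.length := by omega
  have e1 := (rd_get i z).1 h1 t (z[t]) (List.getElem?_eq_getElem hlt)
  have e2 := (rd_get j z).1 h2 t (z[t]) (List.getElem?_eq_getElem hlt)
  have e3 : T (i + t) = 4 := (hT.hash _).2 hd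
  have e4 : n ∣ j + t + 1 := (hT.hash _).1 (by rw [← e2, e1, e3])
  have h3 : i + (t + 1) ≡ j + (t + 1) [MOD n] := by
    have a1 := (Nat.modEq_zero_iff_dvd).2 hd
    have a2 := (Nat.modEq_zero_iff_dvd).2 e4
    exact a1.trans a2.symm
  exact Nat.ModEq.add_right_cancel' _ h3

theorem readable_left {x y : List Ltr} (h : Readable T (x ++ y)) : Readable T x :=
  h.imp fun i hi => ((rd_append i x y).1 hi).1

theorem suf_suffix {u : List Ltr} {h : Option Ltr} {m : ℕ} {z : List Ltr}
    (hs : Suf n T u h m z) : z <:+ u := by
  obtain ⟨v, -, -, -, hzv, -, (⟨-, rfl⟩ | ⟨a, y, -, rfl, -⟩)⟩ := hs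
  · exact hzv
  · exact hzv.trans ⟨y ++ [a], by simp⟩

theorem extend (hn : 4 ≤ n) (hT : Ty n T) {u : List Ltr} {h : Option Ltr} {m k : ℕ}
    {z : List Ltr} {g : Ltr} (hs : Suf n T u h m z) (hk : Rd T k z) (hg : g.1 = T k) :
    Suf n T (u ++ [g]) h ((m + 1) % n) (z.tail ++ [g]) := by
  obtain ⟨v, ⟨i, hi⟩, hnv, hm, ⟨p, hp⟩, hzn, hc⟩ := hs
  have h1 : Rd T (i + p.length) z := by
    rw [← hp] at hi
    exact ((rd_append i p z).1 hi).2
  have h2 : k ≡ i + p.length [MOD n] := idx_unique hn hT (by omega) hk h1
  have h3 : T (i + v.length) = g.1 := by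
    rw [hg]
    apply per_mod hT
    rw [← hp, List.length_append, hzn, ← add_assoc]
    have : i + p.length + n ≡ i + p.length [MOD n] := by simp [Nat.ModEq]
    exact this.trans h2.symm
  refine ⟨v ++ [g], ⟨i, (rd_append _ _ _).2 ⟨hi, ?_⟩⟩, ?_, ?_, ?_, ?_, ?_⟩
  · exact ⟨h3.symm, trivial⟩
  · rw [List.length_append]; omega
  · rw [List.length_append, List.length_singleton, ← hm]; simp
  · cases z with
    | nil => simp at hzn; omega
    | cons b t =>
      refine ⟨p ++ [b], ?_⟩
      rw [← hp]; simp
  · rw [List.length_append, List.length_singleton, List.length_tail]; omega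
  · rcases hc with ⟨hc1, hc2⟩ | ⟨a, y, hc1, hc2, hc3⟩
    · exact Or.inl ⟨hc1, by rw [hc2]⟩
    · refine Or.inr ⟨a, y, hc1, by rw [hc2]; simp, fun hr => hc3 ?_⟩
      exact readable_left (x := a :: v) (y := [g]) (by simpa using hr)

theorem bit_eq {z : List Ltr} {j : ℕ} (h : j < z.length) : bit z j = (z[j]).2 := by
  unfold bit; rw [List.getD_eq_getElem _ _ h]

theorem get_eq {z z' : List Ltr} {k j : ℕ} (h1 : Rd T k z) (h2 : Rd T k z') (hj : j < z.length)
    (hj' : j < z'.length) (hb : bit z j = bit z' j) : z[j] = z'[j] := by
  apply Prod.ext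
  · rw [(rd_get k z).1 h1 j _ (List.getElem?_eq_getElem hj),
      (rd_get k z').1 h2 j _ (List.getElem?_eq_getElem hj')]
  · rw [← bit_eq, ← bit_eq, hb]

theorem drop_eq {z z' : List Ltr} {k c : ℕ} (h1 : Rd T k z) (h2 : Rd T k z')
    (hl : z.length = z'.length) (hb : ∀ j, c ≤ j → bit z j = bit z' j) :
    z.drop c = z'.drop c := by
  apply List.ext_getElem
  · simp [hl]
  · intro j hj hj'
    rw [List.getElem_drop, List.getElem_drop]
    exact get_eq h1 h2 _ _ (hb _ (by omega))

theorem bit_tail {z : List Ltr} {g : Ltr} {j : ℕ} (h : j + 1 < z.length) :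
    bit (z.tail ++ [g]) j = bit z (j + 1) := by
  cases z with
  | nil => simp at h
  | cons b t =>
    unfold bit
    simp only [List.tail_cons, List.length_cons] at h ⊢
    rw [List.getD_append _ _ _ _ (by omega)]
    simp

theorem bit_tail_last {z : List Ltr} {g : Ltr} {j : ℕ} (h : z.length ≤ j + 1) (hz : z ≠ []) :
    bit (z.tail ++ [g]) j = bit [g] (j + 1 - z.length) := by
  cases z with
  | nil => exact absurd rfl hz
  | cons b t =>
    unfold bit
    simp only [List.tail_cons, List.length_cons] at h ⊢
    rw [List.getD_append_right _ _ _ _ (by omega)]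
    congr 2
    omega

theorem t_RER : S_RER := by
  intro n T hn hT u w g hre
  rcases hre with rfl | ⟨q, hq1, hq2, hq3⟩ | ⟨h, m, z, z', hs, hs', hz⟩
  · exact Or.inl rfl
  · right; left
    refine ⟨q ++ [g], ?_, ?_, fun hr => hq3 (readable_left hr)⟩
    · obtain ⟨p, rfl⟩ := hq1; exact ⟨p, by simp⟩
    · obtain ⟨p, rfl⟩ := hq2; exact ⟨p, by simp⟩
  · have hml : m < n := by
      obtain ⟨v, -, -, rfl, -⟩ := hs
      exact Nat.mod_lt _ (by omega)
    rcases hz with rfl | ⟨hh, hzl, hzl', k, hkn, hk, hk', hc, hb1, hb2⟩
    · by_cases hr : Readable T (z ++ [g])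
      · obtain ⟨j, hj⟩ := hr
        rw [rd_append] at hj
        obtain ⟨hj1, hj2, -⟩ := hj
        have hzl : z.length = n := by
          obtain ⟨v, -, -, -, -, h5, -⟩ := hs
          exact h5
        have hg : g.1 = T j := by rw [hj2, hzl, hT.per]
        right; right
        exact ⟨h, _, _, _, extend hn hT hs hj1 hg, extend hn hT hs' hj1 hg, Or.inl rfl⟩
      · right; left
        refine ⟨z ++ [g], ?_, ?_, hr⟩
        · obtain ⟨p, rfl⟩ := suf_suffix hs; exact ⟨p, by simp⟩
        · obtain ⟨p, rfl⟩ := suf_suffix hs'; exact ⟨p, by simp⟩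
    · obtain ⟨a, ha⟩ : ∃ a, a = (n - m) % n := ⟨_, rfl⟩
      rw [← ha] at hc hb1 hb2
      have hak : a + k < n - 1 := by
        rcases hc with ⟨h1, h2, -⟩ | ⟨-, h2, -⟩
        · omega
        · exact h2
      by_cases hg : g.1 = T k
      · right; right
        refine ⟨h, _, _, _, extend hn hT hs hk hg, extend hn hT hs' hk' hg, ?_⟩
        rcases Nat.eq_zero_or_pos a with ha0 | ha0
        · left
          have := drop_eq (c := 1) hk hk' (by omega) (fun j hj => hb2 j (by omega))
          rw [List.drop_one, List.drop_one] at this
          rw [this]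
        · right
          refine ⟨hh, ?_, ?_, k + 1, by omega, ?_, ?_, ?_, ?_, ?_⟩
          · rw [List.length_append, List.length_singleton, List.length_tail]; omega
          · rw [List.length_append, List.length_singleton, List.length_tail]; omega
          · cases z with
            | nil => simp at hzl; omega
            | cons b t =>
              rw [List.tail_cons, rd_append]
              refine ⟨hk.2, ?_, trivial⟩
              rw [hg]
              apply per_mod hT
              simp only [List.length_cons] at hzl
              rw [show k + 1 + t.length = k + n by omega]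
              simp [Nat.ModEq]
          · cases z' with
            | nil => simp at hzl'; omega
            | cons b t =>
              rw [List.tail_cons, rd_append]
              refine ⟨hk'.2, ?_, trivial⟩
              rw [hg]
              apply per_mod hT
              simp only [List.length_cons] at hzl'
              rw [show k + 1 + t.length = k + n by omega]
              simp [Nat.ModEq]
          all_goals
            have ha' : (n - (m + 1) % n) % n = a - 1 := by
              rcases Nat.eq_zero_or_pos m with hm0 | hm0
              · subst hm0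
                rw [Nat.sub_zero, Nat.mod_self] at ha
                omega
              · rw [Nat.mod_eq_of_lt (show n - m < n by omega)] at ha
                rcases Nat.lt_or_ge (m + 1) n with h1 | h1
                · rw [Nat.mod_eq_of_lt h1, Nat.mod_eq_of_lt (by omega)]; omega
                · have h2 : m + 1 = n := by omega
                  rw [h2, Nat.mod_self, Nat.sub_zero, Nat.mod_self]; omega
            rw [ha']
          · right
            rcases hc with ⟨h1, h2, -⟩ | ⟨h1, h2, h3, h4⟩
            · omega
            · refine ⟨by simp [lo], by omega, fun j _ hj => ?_, fun j hj hj' => ?_⟩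
              · rw [bit_tail (by omega)]
                refine h3 _ ?_ (by omega)
                unfold lo; split_ifs <;> omega
              · rw [bit_tail (by omega)]
                exact h4 _ (by omega) (by omega)
          · rw [bit_tail (by omega), bit_tail (by omega), Nat.sub_add_cancel ha0]
            exact hb1
          · intro j hj
            rcases Nat.lt_or_ge (j + 1) n with h1 | h1
            · rw [bit_tail (by omega), bit_tail (by omega)]
              exact hb2 _ (by omega)
            · rw [bit_tail_last (by omega) (by rintro rfl; simp at hzl; omega),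
                bit_tail_last (by omega) (by rintro rfl; simp at hzl'; omega), hzl, hzl']
      · right; left
        have hd := drop_eq (c := n - 1 - k) hk hk' (by omega) (fun j hj => hb2 j (by omega))
        refine ⟨z.drop (n - 1 - k) ++ [g], ?_, ?_, ?_⟩
        · obtain ⟨p, hp⟩ := suf_suffix hs
          refine ⟨p ++ z.take (n - 1 - k), ?_⟩
          rw [← hp, List.append_assoc, ← List.append_assoc (z.take _), List.take_append_drop,
            List.append_assoc]
        · obtain ⟨p, hp⟩ := suf_suffix hs'
          refine ⟨p ++ z'.take (n - 1 - k), ?_⟩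
          rw [hd, ← hp, List.append_assoc, ← List.append_assoc (z'.take _), List.take_append_drop,
            List.append_assoc]
        · rintro ⟨j, hj⟩
          rw [rd_append] at hj
          obtain ⟨hj1, hj2, -⟩ := hj
          rw [List.length_drop, hzl] at hj2
          have hlt : n - 1 - k < z.length := by omega
          have e1 := (rd_get k z).1 hk (n - 1 - k) (z[n - 1 - k]) (List.getElem?_eq_getElem hlt)
          have e2 := (rd_get j _).1 hj1 0 (z[n - 1 - k]) (by
            rw [List.getElem?_drop, Nat.add_zero, List.getElem?_eq_getElem hlt])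
          have e3 : T (k + (n - 1 - k)) = 4 := (hT.hash _).2 ⟨1, by omega⟩
          have e4 : n ∣ j + 0 + 1 := (hT.hash (j + 0)).1 (by rw [← e2, e1, e3])
          apply hg
          rw [hj2]
          apply per_mod hT
          obtain ⟨c, hc'⟩ := e4
          rw [show j + (n - (n - 1 - k)) = k + n * c by omega]
          simp [Nat.ModEq]

end Pool.Agent.X9.GR
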